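import Pool.Agent.H812.Main
import Pool.Graph.R_seed8.Results.MP_4f3c81_gt.FiniteSmoothness

/-!
# Local linearization of `C^k`-actions of `SL(n, ℝ)` on `(ℝ^m, 0)` for `3 ≤ n ≤ m < 2 n - 2`

* every `C^∞`-action is `C^∞`-linearizable near the fixed point;
* for `n < m` (the open range), all `C^k`-actions are `C^k`-linearizable if and only if `k = ∞`
  (the negative part for finite `k` is taken from an earlier result).
-/

set_option autoImplicit false

open Filter Topology Set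
open scoped ContDiff

namespace Pool.Agent.Results.MP_4f3c81_gt.SmoothLinearization

/-- A `C^k`-action of `SL(n,ℝ)` on `(ℝ^m, 0)`, for `k ∈ {0, 1, …, ∞}` (`⊤` stands for `∞`): an
action `a` with jointly continuous action map, such that every group element acts by a `C^k` map
(hence by a `C^k` diffeomorphism, the inverse of `a g` being `a g⁻¹`) and fixes the origin. -/
structure IsCkAction (n m : ℕ) (k : ℕ∞)
    (a : Matrix.SpecialLinearGroup (Fin n) ℝ → EuclideanSpace ℝ (Fin m) →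
      EuclideanSpace ℝ (Fin m)) : Prop where
  one_act : ∀ x, a 1 x = x
  mul_act : ∀ g h x, a (g * h) x = a g (a h x)
  continuous_act : Continuous fun p : Matrix.SpecialLinearGroup (Fin n) ℝ ×
    EuclideanSpace ℝ (Fin m) => a p.1 p.2
  contDiff_act : ∀ g, ContDiff ℝ k (a g)
  fixes_zero : ∀ g, a g 0 = 0

/-- The action `a` is `C^k`-linearizable near the origin: there are open neighbourhoods `V ⊆ U` of
the origin (`U` is the source of `φ`), a neighbourhood `N` of the identity with `N·V ⊆ U`, and a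
`C^k` diffeomorphism `φ` of `U` onto an open set (the target of `φ`), with `φ(0) = 0`, such that
`φ(g·x) = ρ(g) φ(x)` for `g ∈ N`, `x ∈ V`, where `ρ(g)` is the derivative of `g` at the origin. -/
def IsCkLinearizable (n m : ℕ) (k : ℕ∞)
    (a : Matrix.SpecialLinearGroup (Fin n) ℝ → EuclideanSpace ℝ (Fin m) →
      EuclideanSpace ℝ (Fin m)) : Prop :=
  ∃ (V : Set (EuclideanSpace ℝ (Fin m))) (N : Set (Matrix.SpecialLinearGroup (Fin n) ℝ))
    (φ : OpenPartialHomeomorph (EuclideanSpace ℝ (Fin m)) (EuclideanSpace ℝ (Fin m))),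
    IsOpen V ∧ (0 : EuclideanSpace ℝ (Fin m)) ∈ V ∧ V ⊆ φ.source ∧
    N ∈ 𝓝 (1 : Matrix.SpecialLinearGroup (Fin n) ℝ) ∧
    (∀ g ∈ N, ∀ x ∈ V, a g x ∈ φ.source) ∧
    φ 0 = 0 ∧ ContDiffOn ℝ k φ φ.source ∧ ContDiffOn ℝ k φ.symm φ.target ∧
    ∀ g ∈ N, ∀ x ∈ V, φ (a g x) = fderiv ℝ (a g) 0 (φ x)

/-- The case `k = ∞`. -/
theorem smooth (n m : ℕ) (hn : 3 ≤ n) (hm : m < 2 * n - 2)
    (a : Matrix.SpecialLinearGroup (Fin n) ℝ → EuclideanSpace ℝ (Fin m) →
      EuclideanSpace ℝ (Fin m)) (ha : IsCkAction n m ⊤ a) : IsCkLinearizable n m ⊤ a := by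
  have h : Pool.Agent.H812.IsSm a :=
    { one := ha.one_act
      mul := ha.mul_act
      cont := ha.continuous_act
      smooth := ha.contDiff_act }
  obtain ⟨Φ, hΦ, hΦ', hΦ0, hev⟩ := Pool.Agent.H812.lz_of_dim hn
    (by rw [finrank_euclideanSpace_fin]; exact hm) h ha.fixes_zero
  rw [nhds_prod_eq, eventually_prod_iff] at hev
  obtain ⟨pa, hpa, pb, hpb, hP⟩ := hev
  obtain ⟨V, hVb, hVo, hV0⟩ := eventually_nhds_iff.1 hpb
  exact ⟨V, {g | pa g}, Φ.toOpenPartialHomeomorph, hVo, hV0, subset_univ _, hpa,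
    fun g _ x _ => mem_univ _, hΦ0, hΦ.contDiffOn, hΦ'.contDiffOn,
    fun g hg x hx => hP hg (hVb x hx)⟩

/-- **Theorem.** Let `3 ≤ n ≤ m < 2 n - 2`. Every `C^∞`-action of `SL(n, ℝ)` on `(ℝ^m, 0)` is
`C^∞`-linearizable. If moreover `n < m`, then for `k ∈ {1, 2, …, ∞}` all `C^k`-actions of
`SL(n, ℝ)` on `(ℝ^m, 0)` are `C^k`-linearizable if and only if `k = ∞`. -/
theorem result (n m : ℕ) (hn : 3 ≤ n) (hnm : n ≤ m) (hm : m < 2 * n - 2) :
    (∀ a, IsCkAction n m ⊤ a → IsCkLinearizable n m ⊤ a) ∧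
    (n < m → ∀ k : ℕ∞, 1 ≤ k →
      ((∀ a, IsCkAction n m k a → IsCkLinearizable n m k a) ↔ k = ⊤)) := by
  refine ⟨smooth n m hn hm, fun hlt k hk => ⟨fun hall => ?_, ?_⟩⟩
  · by_contra hk'
    lift k to ℕ using hk' with j
    have hj : 1 ≤ j := by exact_mod_cast hk
    obtain ⟨a, ha, hna⟩ := FiniteSmoothness.result n m j (by omega) hnm hj (Or.inl hlt)
    refine hna ?_
    obtain ⟨V, N, φ, h1, h2, h3, h4, h5, h6, h7, h8, h9⟩ := hall a
      ⟨ha.one_act, ha.mul_act, ha.continuous_act, fun g => by exact_mod_cast ha.contDiff_act g,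
        ha.fixes_zero⟩
    exact ⟨V, N, φ, h1, h2, h3, h4, h5, h6, by exact_mod_cast h7, by exact_mod_cast h8, h9⟩
  · rintro rfl
    exact smooth n m hn hm

end Pool.Agent.Results.MP_4f3c81_gt.SmoothLinearization
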